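import Mathlib
import Pool.Agent.Lib.HP.Classical
import Pool.Agent.Lib.RZ.ThmA46

set_option autoImplicit false

open MeasureTheory Complex Real
open scoped SchwartzMap

namespace Pool.Agent.Results.MP_5c95f3_an.BelowSteinWeiss

/-- The first order Riesz transforms characterise the Hardy quasi-norm on a range of exponents
that extends strictly below the Stein-Weiss exponent `(n-1)/n`. -/
theorem result :
  ∀ n : ℕ, 2 ≤ n → ∃ p₀ : ℝ, 0 < p₀ ∧ p₀ < ((n : ℝ) - 1) / n ∧ ∀ p : ℝ, p₀ < p → p < 1 →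
  ∀ φ : 𝓢(EuclideanSpace ℝ (Fin n), ℂ), ∫ x, φ x = 1 →
  ∃ c C : ℝ, 0 < c ∧ 0 < C ∧
  ∀ f : EuclideanSpace ℝ (Fin n) → ℂ, MemLp f 2 →
  ∀ R : Fin n → EuclideanSpace ℝ (Fin n) → ℂ,
    (∀ j : Fin n, MemLp (R j) 2 ∧
      ∀ ψ : 𝓢(EuclideanSpace ℝ (Fin n), ℂ),
        ∫ x, R j x * (∫ ξ, Complex.exp (-(2 * (π : ℂ) * I * (inner ℝ x ξ : ℂ))) * ψ ξ)
          = ∫ x, f x * (∫ ξ, Complex.exp (-(2 * (π : ℂ) * I * (inner ℝ x ξ : ℂ)))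
              * ((-I * (inner ℝ ξ (EuclideanSpace.single j (1 : ℝ)) : ℂ) / (‖ξ‖ : ℂ)) * ψ ξ))) →
    ENNReal.ofReal c * eLpNorm (fun x : EuclideanSpace ℝ (Fin n) => ⨆ (t : ℝ) (_ : 0 < t),
        ‖∫ y, (((t ^ n)⁻¹ : ℝ) : ℂ) * φ (t⁻¹ • (x - y)) * f y‖ₑ) (ENNReal.ofReal p) volume
      ≤ eLpNorm f (ENNReal.ofReal p) volume + ∑ j, eLpNorm (R j) (ENNReal.ofReal p) volume
    ∧ eLpNorm f (ENNReal.ofReal p) volume + ∑ j, eLpNorm (R j) (ENNReal.ofReal p) volume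
      ≤ ENNReal.ofReal C * eLpNorm (fun x : EuclideanSpace ℝ (Fin n) => ⨆ (t : ℝ) (_ : 0 < t),
        ‖∫ y, (((t ^ n)⁻¹ : ℝ) : ℂ) * φ (t⁻¹ • (x - y)) * f y‖ₑ) (ENNReal.ofReal p) volume :=
  Pool.Agent.HP.main_of Pool.Agent.HP.low_all Pool.Agent.HP.up_all Pool.Agent.RZ.thmA

end Pool.Agent.Results.MP_5c95f3_an.BelowSteinWeiss
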