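import Mathlib
import Pool.Agent.Lib.RD7.Low

set_option autoImplicit false

open MeasureTheory Complex Real
open scoped SchwartzMap

namespace Pool.Agent.Results.MP_5c95f3_an.BoundedDegree

/-- The first order Riesz transforms characterise the Hardy quasi-norm for every exponent
`0 < p < 1` on functions whose restrictions to the spheres about the origin are polynomials of
bounded degree (degree zero: radial functions). -/
theorem result :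
  ∀ n : ℕ, 1 ≤ n → ∀ k : ℕ, ∀ p : ℝ, 0 < p → p < 1 →
  ∀ φ : 𝓢(EuclideanSpace ℝ (Fin n), ℂ), ∫ x, φ x = 1 →
  ∃ c C : ℝ, 0 < c ∧ 0 < C ∧
  ∀ f : EuclideanSpace ℝ (Fin n) → ℂ, MemLp f 2 →
  (∃ P : ℝ → MvPolynomial (Fin n) ℂ, (∀ r, (P r).totalDegree ≤ k) ∧
    ∀ᵐ x, f x = MvPolynomial.eval (fun l => (x l : ℂ)) (P ‖x‖)) →
  ∀ R : Fin n → EuclideanSpace ℝ (Fin n) → ℂ,
    (∀ j : Fin n, MemLp (R j) 2 ∧
      ∀ ψ : 𝓢(EuclideanSpace ℝ (Fin n), ℂ),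
        ∫ x, R j x * (∫ ξ, Complex.exp (-(2 * (π : ℂ) * I * (inner ℝ x ξ : ℂ))) * ψ ξ)
          = ∫ x, f x * (∫ ξ, Complex.exp (-(2 * (π : ℂ) * I * (inner ℝ x ξ : ℂ)))
              * ((-I * (inner ℝ ξ (EuclideanSpace.single j (1 : ℝ)) : ℂ) / (‖ξ‖ : ℂ)) * ψ ξ))) →
  ∀ M N : ENNReal,
    M = eLpNorm (fun x : EuclideanSpace ℝ (Fin n) => ⨆ (t : ℝ) (_ : 0 < t),
        ‖∫ y, (((t ^ n)⁻¹ : ℝ) : ℂ) * φ (t⁻¹ • (x - y)) * f y‖ₑ) (ENNReal.ofReal p) volume →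
    N = eLpNorm f (ENNReal.ofReal p) volume + ∑ j, eLpNorm (R j) (ENNReal.ofReal p) volume →
    ENNReal.ofReal c * M ≤ N ∧ N ≤ ENNReal.ofReal C * M := by
  intro n hn k p h0 h1 φ hφ
  obtain ⟨c, C, hc, hC, h⟩ := Pool.Agent.RD7.main hn k h0 h1 φ hφ
  refine ⟨c, C, hc, hC, fun f hf hd R hR M N hM hN => ?_⟩
  rw [hM, hN]
  exact h f hf hd R hR

end Pool.Agent.Results.MP_5c95f3_an.BoundedDegree
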